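import Pool.Agent.T9h66.SW.Deep

/-!
# Stationary winning strategies for accumulation points; the singular cardinals hypothesis
-/

set_option autoImplicit false

universe u

namespace Pool.Agent.Results.MP_fe6d4f_gt.SingularCardinals

open Cardinal Topology Filter

/-- Player P has a stationary winning strategy in `Ssp(X)`. -/
def StatSsp (X : Type u) [TopologicalSpace X] : Prop :=
  ∃ s : Set X → X, (∀ U : Set X, IsOpen U → U.Nonempty → s U ∈ U) ∧
    ∀ U : ℕ → Set X, (∀ n, IsOpen (U n) ∧ (U n).Nonempty) →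
      ∃ (φ : ℕ → ℕ) (x : X), StrictMono φ ∧ Tendsto (fun k => s (U (φ k))) atTop (𝓝 x)

/-- Player P has a stationary winning strategy in `Sp(X)`. -/
def StatSp (X : Type u) [TopologicalSpace X] : Prop :=
  ∃ s : Set X → X, (∀ U : Set X, IsOpen U → U.Nonempty → s U ∈ U) ∧
    ∀ U : ℕ → Set X, (∀ n, IsOpen (U n) ∧ (U n).Nonempty) →
      ∃ x : X, ∀ V : Set X, IsOpen V → x ∈ V → {n | s (U n) ∈ V}.Infinite

/-- `G` admits a pseudocompact group topology. -/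
def Pseudo (G : Type u) [AddCommGroup G] : Prop :=
  ∃ τ : TopologicalSpace G, @IsTopologicalAddGroup G τ _ ∧ @T2Space G τ ∧
    ∀ f : G → ℝ, @Continuous _ _ τ _ f → ∃ C : ℝ, ∀ x, |f x| ≤ C

/-- `G` admits a group topology with a stationary winning strategy in `Ssp`. -/
def HasSsp (G : Type u) [AddCommGroup G] : Prop :=
  ∃ τ : TopologicalSpace G, @IsTopologicalAddGroup G τ _ ∧ @T2Space G τ ∧ @StatSsp G τ

/-- `G` admits a group topology with a stationary winning strategy in `Sp`. -/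
def HasSp (G : Type u) [AddCommGroup G] : Prop :=
  ∃ τ : TopologicalSpace G, @IsTopologicalAddGroup G τ _ ∧ @T2Space G τ ∧ @StatSp G τ

/-- No cardinality `|nG|` lies in an interval `[X, 2 ^ X)` with `X` an uncountable strong limit
cardinal of countable cofinality. -/
def Avoids (G : Type u) [AddCommGroup G] : Prop :=
  ∀ (n : ℕ) (X : Cardinal.{u}), X.IsStrongLimit ∧ ℵ₀ < X ∧ X.ord.cof = ℵ₀ →
    X ≤ #(Set.range fun x : G => n • x) → 2 ^ X ≤ #(Set.range fun x : G => n • x)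

/-- `NG = 0` for some `N ≥ 1`, or there are `N ≥ 1` and a linearly independent family of
cardinality `μ ≥ 𝔠` with `μ ^ ℵ₀ = μ` and `|NG| ≤ 2 ^ (2 ^ μ)`. -/
def Deep (G : Type u) [AddCommGroup G] : Prop :=
  (∃ N : ℕ, 0 < N ∧ ∀ x : G, N • x = 0) ∨
  ∃ (N : ℕ) (M : Type u) (e : M → G), 0 < N ∧ LinearIndependent ℤ e ∧
    𝔠 ≤ #M ∧ #M ^ (ℵ₀ : Cardinal.{u}) = #M ∧
    #(Set.range fun x : G => N • x) ≤ 2 ^ ((2 : Cardinal.{u}) ^ #M)

/-- the singular cardinals hypothesis for countable exponents: `κ ^ ℵ₀ ≤ κ⁺` for `κ ≥ 𝔠` -/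
def SCH : Prop := ∀ κ : Cardinal.{u}, 𝔠 ≤ κ → κ ^ (ℵ₀ : Cardinal.{u}) ≤ Order.succ κ

/-- For `μ ≥ 𝔠` with `μ ^ ℵ₀ = μ` there is a family of `2 ^ μ` functions `N → 2`, `|N| = μ`, with
only countably many restrictions to each countable subset of `N`. -/
def KurepaFamilies : Prop := ∀ μ : Cardinal.{u}, 𝔠 ≤ μ → μ ^ (ℵ₀ : Cardinal.{u}) = μ →
  ∃ (N Y : Type u) (f : Y → (N → Bool)), Function.Injective f ∧
    (∀ c : ℕ → N, (Set.range fun y n => f y (c n)).Countable) ∧ #N = μ ∧ #Y = 2 ^ μ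

theorem statSp_iff (X : Type u) [TopologicalSpace X] :
    StatSp X ↔ Pool.Agent.T9h66.SW.WinSp X := by
  have key : ∀ (c : ℕ → X) (x : X), MapClusterPt x atTop c ↔
      ∀ V : Set X, IsOpen V → x ∈ V → {n | c n ∈ V}.Infinite := by
    intro c x
    rw [mapClusterPt_iff_frequently]
    constructor
    · intro h V hV hx
      exact Nat.frequently_atTop_iff_infinite.1 (h V (hV.mem_nhds hx))
    · intro h V hV
      obtain ⟨W, hWV, hW, hxW⟩ := mem_nhds_iff.1 hV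
      exact (Nat.frequently_atTop_iff_infinite.2 (h W hW hxW)).mono fun n hn => hWV hn
  constructor
  · rintro ⟨s, h1, h2⟩
    refine ⟨s, h1, fun U hU => ?_⟩
    obtain ⟨x, hx⟩ := h2 U hU
    exact ⟨x, (key _ x).2 hx⟩
  · rintro ⟨s, h1, h2⟩
    refine ⟨s, h1, fun U hU => ?_⟩
    obtain ⟨x, hx⟩ := h2 U hU
    exact ⟨x, (key _ x).1 hx⟩

theorem hasSp_iff (G : Type u) [AddCommGroup G] : HasSp G ↔ Pool.Agent.T9h66.SW.HasSp G := by
  constructor
  · rintro ⟨τ, h1, h2, h3⟩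
    exact ⟨τ, h1, h2, (@statSp_iff G τ).1 h3⟩
  · rintro ⟨τ, h1, h2, h3⟩
    exact ⟨τ, h1, h2, (@statSp_iff G τ).2 h3⟩

theorem result :
    (∀ (G : Type u) [AddCommGroup G], Pseudo G → Deep G → (HasSp G ↔ Avoids G)) ∧
    (SCH.{u} → ∀ (G : Type u) [AddCommGroup G], Pseudo G → Deep G ∧ Avoids G ∧ HasSp G) ∧
    (SCH.{u} → KurepaFamilies.{u} → ∀ (G : Type u) [AddCommGroup G], Pseudo G → HasSsp G) := by
  have h1 : ∀ (G : Type u) [AddCommGroup G], Pseudo G → Deep G → (HasSp G ↔ Avoids G) := by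
    intro G _ hP hD
    exact ⟨fun h => ((hasSp_iff G).1 h).cc, fun h => (hasSp_iff G).2
      (Pool.Agent.T9h66.SW.Deep.hasSp hP h hD)⟩
  refine ⟨h1, ?_, ?_⟩
  · intro hs G _ hP
    have hD : Deep G := Pool.Agent.T9h66.SW.deep_of_sch hs hP
    have hA : Avoids G := Pool.Agent.T9h66.SW.cc_of_star (Pool.Agent.T9h66.SW.sch_star hs)
      (Pool.Agent.T9h66.SW.Psc.hypA hP)
    exact ⟨hD, hA, (h1 G hP hD).2 hA⟩
  · intro hs hK G _ hP
    refine Pool.Agent.T9h66.SW.sch_hasSsp hs ?_ hP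
    intro μ hμ hμ2
    obtain ⟨N, Y, f, hf1, hf2, hN, hY⟩ := hK μ hμ hμ2
    exact ⟨N, Y, f, ⟨hf1, hf2⟩, hN, hY⟩

end Pool.Agent.Results.MP_fe6d4f_gt.SingularCardinals
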