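import Pool.Agent.T9h66.SW.Wide

/-!
# Stationary winning strategies and strong limit cardinals of countable cofinality
-/

set_option autoImplicit false

universe u

namespace Pool.Agent.Results.MP_fe6d4f_gt.StrongLimits

open Cardinal Topology Filter

/-- Player P has a stationary winning strategy in `Ssp(X)`. -/
def StatSsp (X : Type u) [TopologicalSpace X] : Prop :=
  ∃ s : Set X → X, (∀ U : Set X, IsOpen U → U.Nonempty → s U ∈ U) ∧
    ∀ U : ℕ → Set X, (∀ n, IsOpen (U n) ∧ (U n).Nonempty) →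
      ∃ (φ : ℕ → ℕ) (x : X), StrictMono φ ∧ Tendsto (fun k => s (U (φ k))) atTop (𝓝 x)

/-- Player P has a stationary winning strategy in `Sp(X)`. -/
def StatSp (X : Type u) [TopologicalSpace X] : Prop :=
  ∃ s : Set X → X, (∀ U : Set X, IsOpen U → U.Nonempty → s U ∈ U) ∧
    ∀ U : ℕ → Set X, (∀ n, IsOpen (U n) ∧ (U n).Nonempty) →
      ∃ x : X, ∀ V : Set X, IsOpen V → x ∈ V → {n | s (U n) ∈ V}.Infinite

/-- `G` admits a pseudocompact group topology. -/
def Pseudo (G : Type u) [AddCommGroup G] : Prop :=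
  ∃ τ : TopologicalSpace G, @IsTopologicalAddGroup G τ _ ∧ @T2Space G τ ∧
    ∀ f : G → ℝ, @Continuous _ _ τ _ f → ∃ C : ℝ, ∀ x, |f x| ≤ C

/-- `G` admits a group topology with a stationary winning strategy in `Ssp`. -/
def HasSsp (G : Type u) [AddCommGroup G] : Prop :=
  ∃ τ : TopologicalSpace G, @IsTopologicalAddGroup G τ _ ∧ @T2Space G τ ∧ @StatSsp G τ

/-- `G` admits a group topology with a stationary winning strategy in `Sp`. -/
def HasSp (G : Type u) [AddCommGroup G] : Prop :=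
  ∃ τ : TopologicalSpace G, @IsTopologicalAddGroup G τ _ ∧ @T2Space G τ ∧ @StatSp G τ

/-- uncountable strong limit cardinals of countable cofinality -/
def SL (X : Cardinal.{u}) : Prop := X.IsStrongLimit ∧ ℵ₀ < X ∧ X.ord.cof = ℵ₀

/-- No cardinality `|nG|` lies in an interval `[X, 2 ^ X)` with `SL X`. -/
def Avoids (G : Type u) [AddCommGroup G] : Prop :=
  ∀ (n : ℕ) (X : Cardinal.{u}), SL X → X ≤ #(Set.range fun x : G => n • x) →
    2 ^ X ≤ #(Set.range fun x : G => n • x)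

/-- Every set of functions `X → 2` which realises every function on every countable subset of `X`
has at least `2 ^ |X|` elements, for every set `X` with `SL |X|`. -/
def Star : Prop :=
  ∀ X : Type u, SL #X → ∀ L : Set (X → Bool),
    (∀ C : Set X, C.Countable → ∀ b : X → Bool, ∃ f ∈ L, ∀ x ∈ C, f x = b x) → 2 ^ #X ≤ #L

/-- bounded groups and groups with many independent elements -/
def Wide (G : Type u) [AddCommGroup G] : Prop :=
  (∃ N : ℕ, 0 < N ∧ ∀ x : G, N • x = 0) ∨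
  ∃ (N : ℕ) (M : Type u) (e : M → G), 0 < N ∧ LinearIndependent ℤ e ∧
    (#(Set.range fun x : G => N • x) ≤ #M ∨
      ∃ J : Cardinal.{u}, ℵ₁ ≤ J ∧ #(Set.range fun x : G => N • x) ≤ 2 ^ J ∧
        J ^ (ℵ₀ : Cardinal.{u}) ≤ #M)

theorem statSp_iff (X : Type u) [TopologicalSpace X] :
    StatSp X ↔ Pool.Agent.T9h66.SW.WinSp X := by
  have key : ∀ (c : ℕ → X) (x : X), MapClusterPt x atTop c ↔
      ∀ V : Set X, IsOpen V → x ∈ V → {n | c n ∈ V}.Infinite := by
    intro c x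
    rw [mapClusterPt_iff_frequently]
    constructor
    · intro h V hV hx
      exact Nat.frequently_atTop_iff_infinite.1 (h V (hV.mem_nhds hx))
    · intro h V hV
      obtain ⟨W, hWV, hW, hxW⟩ := mem_nhds_iff.1 hV
      exact (Nat.frequently_atTop_iff_infinite.2 (h W hW hxW)).mono fun n hn => hWV hn
  constructor
  · rintro ⟨s, h1, h2⟩
    refine ⟨s, h1, fun U hU => ?_⟩
    obtain ⟨x, hx⟩ := h2 U hU
    exact ⟨x, (key _ x).2 hx⟩
  · rintro ⟨s, h1, h2⟩
    refine ⟨s, h1, fun U hU => ?_⟩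
    obtain ⟨x, hx⟩ := h2 U hU
    exact ⟨x, (key _ x).1 hx⟩

theorem hasSp_iff (G : Type u) [AddCommGroup G] : HasSp G ↔ Pool.Agent.T9h66.SW.HasSp G := by
  constructor
  · rintro ⟨τ, h1, h2, h3⟩
    exact ⟨τ, h1, h2, (@statSp_iff G τ).1 h3⟩
  · rintro ⟨τ, h1, h2, h3⟩
    exact ⟨τ, h1, h2, (@statSp_iff G τ).2 h3⟩

theorem result :
    (∀ (G : Type u) [AddCommGroup G], HasSp G → Avoids G) ∧
    (∀ (G : Type u) [AddCommGroup G], Pseudo G → Wide G →
      ((HasSsp G ↔ Avoids G) ∧ (HasSp G ↔ Avoids G))) ∧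
    (Star.{u} ↔ ∀ (G : Type u) [AddCommGroup G], Pseudo G → Wide G → HasSsp G) ∧
    (Star.{u} ↔ ∀ (G : Type u) [AddCommGroup G], (∀ x : G, x + x = 0) → Pseudo G → HasSp G) ∧
    (¬ Star.{u} → ∃ (G : Type u) (_ : AddCommGroup G), (∀ x : G, x + x = 0) ∧ Pseudo G ∧
      ¬ HasSp G ∧ ¬ HasSsp G) := by
  have h1 : ∀ (G : Type u) [AddCommGroup G], HasSp G → Avoids G := fun G _ h =>
    ((hasSp_iff G).1 h).cc
  have h2 : ∀ (G : Type u) [AddCommGroup G], HasSsp G → HasSp G := fun G _ h =>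
    (hasSp_iff G).2 (Pool.Agent.T9h66.SW.HasSsp.hasSp h)
  have h3 : ∀ (G : Type u) [AddCommGroup G], Pseudo G → Wide G → Avoids G → HasSsp G :=
    fun G _ hP hW hA => Pool.Agent.T9h66.SW.hasSsp_class hP hA (Pool.Agent.T9h66.SW.Wide.cls hW)
  have h4 : Star.{u} → ∀ (G : Type u) [AddCommGroup G], Pseudo G → Avoids G := fun hs G _ hP =>
    Pool.Agent.T9h66.SW.cc_of_star hs (Pool.Agent.T9h66.SW.Psc.hypA hP)
  have h5 : (∀ (G : Type u) [AddCommGroup G], (∀ x : G, x + x = 0) → Pseudo G → HasSp G) →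
      Star.{u} := fun h => Pool.Agent.T9h66.SW.star_of_hasSp fun G _ hG hP =>
    (hasSp_iff G).1 (h G hG hP)
  have h6 : ∀ (G : Type u) [AddCommGroup G], (∀ x : G, x + x = 0) → Wide G := fun G _ hG =>
    Or.inl ⟨2, two_pos, fun x => by rw [two_smul]; exact hG x⟩
  refine ⟨h1, ?_, ?_, ?_, ?_⟩
  · intro G _ hP hW
    exact ⟨⟨fun h => h1 G (h2 G h), h3 G hP hW⟩, ⟨h1 G, fun h => h2 G (h3 G hP hW h)⟩⟩
  · constructor
    · intro hs G _ hP hW
      exact h3 G hP hW (h4 hs G hP)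
    · intro h
      exact h5 fun G _ hG hP => h2 G (h G hP (h6 G hG))
  · constructor
    · intro hs G _ hG hP
      exact h2 G (h3 G hP (h6 G hG) (h4 hs G hP))
    · exact h5
  · intro hs
    by_contra hcon
    push Not at hcon
    apply hs
    apply h5
    intro G _ hG hP
    by_contra hno
    exact hno (h2 G (hcon G inferInstance hG hP hno))

end Pool.Agent.Results.MP_fe6d4f_gt.StrongLimits
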